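import Mathlib
import Pool.Agent.H72.Grig

namespace Pool.Agent.Results.MP_bbfbdc_al.SphLower

open Pool.Agent.H72.GrigDefs

theorem result : ∃ α : ℝ, 0 < α ∧ ∃ C : ℕ, 0 < C ∧ ∀ n : ℕ,
    Real.exp ((n : ℝ) ^ α) ≤ (sph (C * n) : ℝ) :=
  ⟨1 / 3, by norm_num, Pool.Agent.H72.Grig.exp_le_sph⟩

end Pool.Agent.Results.MP_bbfbdc_al.SphLower
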